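import Pool.Agent.Helper14.LK.St
import Pool.Agent.Helper14.LK.Basic

/-! Project LK (MP_58b586_gt), module BIJ: families of maps with injective derivative, equal to the
identity outside a ball, consist of bijections with jointly smooth inverse. -/

set_option autoImplicit false

namespace Pool.Agent.Helper98.LK

open Pool.Agent.Helper14.LK
open scoped ContDiff Topology
open MeasureTheory Set Filter

/-- a smooth map with injective derivative has a strict derivative which is an equivalence -/
private lemma strict {V : Type} [NormedAddCommGroup V] [NormedSpace ℝ V] [FiniteDimensional ℝ V]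
    {f : V → V} (hf : ContDiff ℝ ∞ f) (hinj : ∀ v a, fderiv ℝ f v a = 0 → a = 0) (v : V) :
    ∃ e : V ≃L[ℝ] V, (e : V →L[ℝ] V) = fderiv ℝ f v ∧ HasStrictFDerivAt f (e : V →L[ℝ] V) v := by
  have h1 : Function.Injective (fderiv ℝ f v : V →ₗ[ℝ] V) := by
    rw [← LinearMap.ker_eq_bot, LinearMap.ker_eq_bot']
    intro a ha
    exact hinj v a ha
  let e0 : V ≃ₗ[ℝ] V := LinearEquiv.ofInjectiveEndo (fderiv ℝ f v : V →ₗ[ℝ] V) h1
  let e : V ≃L[ℝ] V := e0.toContinuousLinearEquiv
  have he : (e : V →L[ℝ] V) = fderiv ℝ f v := by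
    ext a
    rfl
  refine ⟨e, he, ?_⟩
  rw [he]
  exact hf.contDiffAt.hasStrictFDerivAt (by simp)

private lemma openMap {V : Type} [NormedAddCommGroup V] [NormedSpace ℝ V] [FiniteDimensional ℝ V]
    {f : V → V} (hf : ContDiff ℝ ∞ f) (hinj : ∀ v a, fderiv ℝ f v a = 0 → a = 0) (v : V) :
    map f (𝓝 v) = 𝓝 (f v) := by
  have : CompleteSpace V := FiniteDimensional.complete ℝ V
  obtain ⟨e, _, h⟩ := strict hf hinj v
  exact h.map_nhds_eq_of_equiv

private lemma locInj {V : Type} [NormedAddCommGroup V] [NormedSpace ℝ V] [FiniteDimensional ℝ V]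
    {f : V → V} (hf : ContDiff ℝ ∞ f) (hinj : ∀ v a, fderiv ℝ f v a = 0 → a = 0) (v : V) :
    ∃ U ∈ 𝓝 v, InjOn f U := by
  have : CompleteSpace V := FiniteDimensional.complete ℝ V
  obtain ⟨e, _, h⟩ := strict hf hinj v
  refine ⟨(h.toOpenPartialHomeomorph f).source,
    (h.toOpenPartialHomeomorph f).open_source.mem_nhds h.mem_toOpenPartialHomeomorph_source, ?_⟩
  exact (h.toOpenPartialHomeomorph f).injOn

private lemma surj {V : Type} [NormedAddCommGroup V] [NormedSpace ℝ V] [FiniteDimensional ℝ V]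
    {f : V → V} (hf : ContDiff ℝ ∞ f) (hinj : ∀ v a, fderiv ℝ f v a = 0 → a = 0) {R : ℝ}
    (hR : ∀ v, R ≤ ‖v‖ → f v = v) : Function.Surjective f := by
  have : ProperSpace V := FiniteDimensional.proper ℝ V
  have hopen : IsOpen (range f) := by
    rw [isOpen_iff_mem_nhds]
    rintro _ ⟨v, rfl⟩
    rw [← openMap hf hinj v]
    exact mem_map.2 (Filter.univ_mem' fun w => mem_range_self w)
  have heq : range f = f '' Metric.closedBall 0 R ∪ {v | R ≤ ‖v‖} := by
    ext z
    constructor
    · rintro ⟨v, rfl⟩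
      rcases le_total ‖v‖ R with h | h
      · exact Or.inl ⟨v, by simpa using h, rfl⟩
      · right
        rw [mem_ofPred_eq, hR v h]
        exact h
    · rintro (⟨v, _, rfl⟩ | h)
      · exact mem_range_self v
      · exact ⟨z, hR z h⟩
  have hclosed : IsClosed (range f) := by
    rw [heq]
    exact ((isCompact_closedBall 0 R).image hf.continuous).isClosed.union
      (isClosed_le continuous_const continuous_norm)
  have huniv : range f = univ := IsClopen.eq_univ ⟨hclosed, hopen⟩ (range_nonempty f)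
  exact range_eq_univ.1 huniv

private lemma inj {V : Type} [NormedAddCommGroup V] [NormedSpace ℝ V] [FiniteDimensional ℝ V]
    {f : V → V} (hf : ContDiff ℝ ∞ f) (hinj : ∀ v a, fderiv ℝ f v a = 0 → a = 0) {R : ℝ}
    (hR : ∀ v, R ≤ ‖v‖ → f v = v) : Function.Injective f := by
  have : ProperSpace V := FiniteDimensional.proper ℝ V
  rcases subsingleton_or_nontrivial V with hV | hV
  · exact Function.injective_of_subsingleton f
  -- the set of the pairs of different points with the same image
  set S : Set (V × V) := {p | f p.1 = f p.2 ∧ p.1 ≠ p.2} with hS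
  have hScl : IsClosed S := by
    rw [← isOpen_compl_iff, isOpen_iff_mem_nhds]
    rintro ⟨a, b⟩ hab
    by_cases h1 : f a = f b
    · have h2 : a = b := by
        by_contra h3
        exact hab ⟨h1, h3⟩
      subst h2
      obtain ⟨U, hU, hUi⟩ := locInj hf hinj a
      refine Filter.mem_of_superset (prod_mem_nhds hU hU) ?_
      rintro ⟨a', b'⟩ ⟨ha', hb'⟩ ⟨h4, h5⟩
      exact h5 (hUi ha' hb' h4)
    · have h3 : IsOpen {p : V × V | f p.1 ≠ f p.2} :=
        isOpen_ne_fun (hf.continuous.comp continuous_fst) (hf.continuous.comp continuous_snd)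
      refine Filter.mem_of_superset (h3.mem_nhds h1) ?_
      rintro ⟨a', b'⟩ h4 ⟨h5, _⟩
      exact h4 h5
  -- it is bounded
  obtain ⟨C, hC⟩ := ((isCompact_closedBall (0 : V) R).image hf.continuous).isBounded.exists_norm_le
  have hbd1 : ∀ a b : V, f a = f b → a ≠ b → ‖b‖ ≤ max R C := by
    intro a b h1 h2
    rcases le_total ‖b‖ R with h3 | h3
    · exact h3.trans (le_max_left _ _)
    · have h4 : f b = b := hR b h3
      rcases le_total ‖a‖ R with h5 | h5
      · have h6 := hC (f a) ⟨a, by simpa using h5, rfl⟩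
        rw [h1, h4] at h6
        exact h6.trans (le_max_right _ _)
      · exfalso
        apply h2
        rw [← hR a h5, h1, h4]
  have hSsub : S ⊆ Metric.closedBall 0 (max R C) ×ˢ Metric.closedBall 0 (max R C) := by
    rintro ⟨a, b⟩ ⟨h1, h2⟩
    refine ⟨?_, ?_⟩
    · simpa using hbd1 b a h1.symm (Ne.symm h2)
    · simpa using hbd1 a b h1 h2
  have hScpt : IsCompact S :=
    ((isCompact_closedBall (0 : V) (max R C)).prod
      (isCompact_closedBall (0 : V) (max R C))).of_isClosed_subset hScl hSsub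
  -- the set of the double points
  set Q : Set V := (fun p : V × V => f p.1) '' S with hQ
  have hQcpt : IsCompact Q := hScpt.image (hf.continuous.comp continuous_fst)
  have hQopen : IsOpen Q := by
    rw [isOpen_iff_mem_nhds]
    rintro _ ⟨⟨a, b⟩, ⟨h1, h2⟩, rfl⟩
    obtain ⟨A, B, hA, hB, haA, hbB, hAB⟩ := t2_separation h2
    have h3 : f '' A ∈ 𝓝 (f a) := by
      rw [← openMap hf hinj a]
      exact image_mem_map (hA.mem_nhds haA)
    have h4 : f '' B ∈ 𝓝 (f a) := by
      change f a = f b at h1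
      rw [h1, ← openMap hf hinj b]
      exact image_mem_map (hB.mem_nhds hbB)
    refine Filter.mem_of_superset (Filter.inter_mem h3 h4) ?_
    rintro z ⟨⟨a', ha', rfl⟩, ⟨b', hb', h5⟩⟩
    refine ⟨(a', b'), ⟨h5.symm, ?_⟩, rfl⟩
    intro h6
    change a' = b' at h6
    subst h6
    exact Set.disjoint_left.1 hAB ha' hb'
  have hQe : Q = ∅ := by
    by_contra hne
    have h1 : Q = univ := IsClopen.eq_univ ⟨hQcpt.isClosed, hQopen⟩
      (nonempty_iff_ne_empty.2 hne)
    rw [h1] at hQcpt
    exact noncompact_univ V hQcpt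
  intro a b hab
  by_contra hne
  have : f a ∈ Q := ⟨(a, b), ⟨hab, hne⟩, rfl⟩
  rw [hQe] at this
  exact this

theorem hBIJ : StBIJ := by
  intro V _ _ _ F hF hinj R hR
  have : CompleteSpace V := FiniteDimensional.complete ℝ V
  have hFr : ∀ r, ContDiff ℝ ∞ (F r) := fun r =>
    hF.comp (contDiff_const.prodMk contDiff_id)
  have hs : ∀ r, Function.Surjective (F r) := fun r => surj (hFr r) (hinj r) (hR r)
  have hi : ∀ r, Function.Injective (F r) := fun r => inj (hFr r) (hinj r) (hR r)
  -- the map `(r, v) ↦ (r, F r v)`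
  set G : ℝ × V → ℝ × V := fun p => (p.1, F p.1 p.2) with hG
  have hGs : ContDiff ℝ ∞ G := contDiff_fst.prodMk hF
  have hGi : Function.Injective G := by
    rintro ⟨r, v⟩ ⟨r', v'⟩ h
    have h1 : r = r' := congrArg Prod.fst h
    subst h1
    have h2 : F r v = F r v' := congrArg Prod.snd h
    rw [hi r h2]
  have hGsu : Function.Surjective G := by
    rintro ⟨r, z⟩
    obtain ⟨v, hv⟩ := hs r z
    exact ⟨(r, v), by simp only [hG]; rw [hv]⟩
  have hGd : ∀ p a, fderiv ℝ G p a = 0 → a = 0 := by
    rintro ⟨r, v⟩ ⟨ρ, a⟩ h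
    have hFd : DifferentiableAt ℝ (Function.uncurry F) (r, v) :=
      (hF.differentiable (by simp)).differentiableAt
    have h1 : HasFDerivAt G ((ContinuousLinearMap.fst ℝ ℝ V).prod
        (fderiv ℝ (Function.uncurry F) (r, v))) (r, v) :=
      hasFDerivAt_fst.prodMk hFd.hasFDerivAt
    rw [h1.fderiv] at h
    have h2 : ρ = 0 := congrArg Prod.fst h
    have h3 : fderiv ℝ (Function.uncurry F) (r, v) (ρ, a) = 0 := congrArg Prod.snd h
    subst h2
    have h4 : HasFDerivAt (F r) ((fderiv ℝ (Function.uncurry F) (r, v)).comp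
        (ContinuousLinearMap.inr ℝ ℝ V)) v := by
      have h5 : HasFDerivAt (fun w : V => (r, w)) (ContinuousLinearMap.inr ℝ ℝ V) v :=
        hasFDerivAt_prodMk_right r v
      exact hFd.hasFDerivAt.comp v h5
    have h6 : fderiv ℝ (F r) v a = 0 := by
      rw [h4.fderiv]
      exact h3
    rw [hinj r v a h6]
    rfl
  have hGo : IsOpenMap G := by
    rw [isOpenMap_iff_nhds_le]
    intro p
    exact (openMap hGs hGd p).ge
  let H : (ℝ × V) ≃ₜ (ℝ × V) :=
    (Equiv.ofBijective G ⟨hGi, hGsu⟩).toHomeomorphOfContinuousOpen hGs.continuous hGo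
  have hHG : ∀ p, H p = G p := fun _ => rfl
  have hHs : ContDiff ℝ ∞ (H.symm : ℝ × V → ℝ × V) := by
    choose e he hes using fun p => strict hGs hGd p
    refine H.contDiff_symm (f₀' := e) (fun p => ?_) hGs
    exact (hes p).hasFDerivAt
  have hH1 : ∀ r z, H.symm (r, z) = (r, (H.symm (r, z)).2) := by
    intro r z
    have h1 : G (H.symm (r, z)) = (r, z) := H.apply_symm_apply (r, z)
    have h2 : (H.symm (r, z)).1 = r := congrArg Prod.fst h1
    exact Prod.ext h2 rfl
  refine ⟨fun r z => (H.symm (r, z)).2, ?_, ?_, ?_⟩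
  · have : (Function.uncurry fun (r : ℝ) (z : V) => (H.symm (r, z)).2) =
        fun p : ℝ × V => (H.symm p).2 := by
      funext p
      rfl
    rw [this]
    exact contDiff_snd.comp hHs
  · intro r z
    have h1 : G (H.symm (r, z)) = (r, z) := H.apply_symm_apply (r, z)
    rw [hH1 r z] at h1
    exact congrArg Prod.snd h1
  · intro r v
    have h1 : H.symm (G (r, v)) = (r, v) := H.symm_apply_apply (r, v)
    exact congrArg Prod.snd h1

end Pool.Agent.Helper98.LK
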